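import Pool.Agent.Work.MP_dcf6a6_c1.Interface
import Pool.Agent.Work.MP_dcf6a6_tv_helper30.CORE
import Pool.Agent.Work.MP_dcf6a6_tv_helper83.RHO

/-! Block CORR: correction of start and end of a solution. -/

namespace Pool.C1.helper73

open Polynomial

open Pool.TVar.helper30.CORE (coprime_iff)

/-- division of `p - s` by powers of two linear factors -/
lemma exists_E (p : ℂ[X]) (s r r' : ℂ) (k : ℕ) (hrr : r ≠ r')
    (h1 : ∃ q : ℂ[X], p - C s = (X - C r) ^ k * q ∧ q.eval r ≠ 0)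
    (h2 : ∃ q : ℂ[X], p - C s = (X - C r') ^ k * q ∧ q.eval r' ≠ 0) :
    ∃ E : ℂ[X], p - C s = ((X - C r) * (X - C r')) ^ k * E ∧ E.eval r ≠ 0 ∧ E.eval r' ≠ 0 := by
  obtain ⟨q, hq, hq0⟩ := h1
  obtain ⟨q', hq', hq0'⟩ := h2
  have hcop : IsCoprime ((X - C r : ℂ[X]) ^ k) ((X - C r') ^ k) := by
    apply IsCoprime.pow
    rw [coprime_iff]
    intro t ht
    rw [eval_sub, eval_X, eval_C] at ht ⊢
    rw [sub_eq_zero] at ht
    rw [ht]; exact sub_ne_zero.mpr hrr
  obtain ⟨E, hE⟩ : (X - C r) ^ k * (X - C r') ^ k ∣ p - C s :=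
    hcop.mul_dvd ⟨q, hq⟩ ⟨q', hq'⟩
  refine ⟨E, by rw [hE, mul_pow], ?_, ?_⟩
  · intro h
    apply hq0
    have h3 : (X - C r) ^ k * q = (X - C r) ^ k * ((X - C r') ^ k * E) := by
      rw [← hq, hE]; ring
    have h4 := mul_left_cancel₀ (pow_ne_zero _ (X_sub_C_ne_zero r)) h3
    rw [h4, eval_mul, h, mul_zero]
  · intro h
    apply hq0'
    have h3 : (X - C r') ^ k * q' = (X - C r') ^ k * ((X - C r) ^ k * E) := by
      rw [← hq', hE]; ring
    have h4 := mul_left_cancel₀ (pow_ne_zero _ (X_sub_C_ne_zero r')) h3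
    rw [h4, eval_mul, h, mul_zero]

lemma g_dvd {J B : Type} [Fintype J] [Fintype B] [DecidableEq J] [DecidableEq B] (D : BData J B)
    (b : B) (j : J) (hj : D.bl j = b) : D.g b ∣ D.l j :=
  Finset.gcd_dvd (Finset.mem_filter.mpr ⟨Finset.mem_univ _, hj⟩)

lemma pow_g {J B : Type} [Fintype J] [Fintype B] [DecidableEq J] [DecidableEq B] (D : BData J B)
    (b : B) (f h : J → ℂ) (hfh : ∏ j with D.bl j = b, f j ^ (D.l j / D.g b) =
      ∏ j with D.bl j = b, h j ^ (D.l j / D.g b)) :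
    ∏ j with D.bl j = b, f j ^ D.l j = ∏ j with D.bl j = b, h j ^ D.l j := by
  have key : ∀ f : J → ℂ, ∏ j with D.bl j = b, f j ^ D.l j =
      (∏ j with D.bl j = b, f j ^ (D.l j / D.g b)) ^ D.g b := by
    intro f
    rw [← Finset.prod_pow]
    refine Finset.prod_congr rfl fun j hj => ?_
    rw [Finset.mem_filter] at hj
    rw [← pow_mul, Nat.div_mul_cancel (g_dvd D b j hj.2)]
  rw [key, key, hfh]

theorem stmt_CORR (hC : Stmt_CYCM) (hH : Stmt_HERK) : Stmt_CORR := by
  classical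
  intro J B _ _ _ _ D c d τ u v x y hS hc hx hy hτ0 hx1 hy1
  have hR : Pool.TVar.Stmt_RHO := @Pool.TVar.helper83.stmt_RHO
  -- roots
  have hs : ∀ j, ∃ s, (τ j).eval s = 0 := by
    intro j
    have hdeg : (τ j).degree ≠ 0 := by
      intro h
      have h1 := natDegree_eq_of_degree_eq_some h
      rw [hS.deg j] at h1
      exact (hc j).ne' h1
    obtain ⟨s, hs⟩ := IsAlgClosed.exists_root (τ j) hdeg
    exact ⟨s, hs⟩
  choose s hs using hs
  set m : J → ℕ := fun j => rootMultiplicity (s j) (τ j) with hm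
  have hmpos : ∀ j, 0 < m j := fun j => (rootMultiplicity_pos (hS.ne j)).mpr (hs j)
  have hfac : ∀ j, ∃ Q : ℂ[X], τ j = (X - C (s j)) ^ m j * Q ∧ Q.eval (s j) ≠ 0 := by
    intro j
    obtain ⟨Q, hQ, hnd⟩ := exists_eq_pow_rootMultiplicity_mul_and_not_dvd (τ j) (hS.ne j) (s j)
    exact ⟨Q, hQ, fun h => hnd (dvd_iff_isRoot.mpr h)⟩
  choose Q' hQ hQ' using hfac
  set M : ℕ := ∏ j, D.l j * m j with hM
  have hMpos : 0 < M := Finset.prod_pos fun j _ => Nat.mul_pos (D.l_pos j) (hmpos j)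
  have hMdvd : ∀ j, D.l j * m j ∣ M := fun j => Finset.dvd_prod_of_mem _ (Finset.mem_univ j)
  choose k hk using hMdvd
  have hkpos : ∀ j, 0 < k j := by
    intro j
    rcases Nat.eq_zero_or_pos (k j) with h | h
    · rw [hk j, h, mul_zero] at hMpos
      exact absurd hMpos (lt_irrefl _)
    · exact h
  have hMl : ∀ j, M / D.l j = k j * m j := by
    intro j
    rw [hk j, mul_assoc, Nat.mul_div_cancel_left _ (D.l_pos j), mul_comm]
  have hlM : ∀ j, D.l j ∣ M := fun j => (Dvd.intro _ rfl : D.l j ∣ D.l j * m j).trans ⟨k j, hk j⟩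
  have hMl' : ∀ j, M / D.l j * D.l j = M := fun j => Nat.div_mul_cancel (hlM j)
  have hlead : ∀ j, (τ j).leadingCoeff ≠ 0 := fun j => leadingCoeff_ne_zero.mpr (hS.ne j)
  obtain ⟨η, hη⟩ : ∃ η : J → ℂ, η = fun j => y j / (τ j).leadingCoeff := ⟨_, rfl⟩
  have hη0 : ∀ j, η j ≠ 0 := by intro j; rw [hη]; exact div_ne_zero (hy j) (hlead j)
  obtain ⟨κ, hκ⟩ : ∃ κ : J → ℂ, κ = fun j => x j / ((τ j).coeff 0 * η j) := ⟨_, rfl⟩
  have hηg : ∀ b, ∏ j with D.bl j = b, η j ^ (D.l j / D.g b) = 1 := by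
    intro b
    simp only [hη, div_pow]
    rw [Finset.prod_div_distrib, hy1 b, div_self]
    exact Finset.prod_ne_zero_iff.mpr fun j _ => pow_ne_zero _ (hy j)
  have hηl : ∀ b, ∏ j with D.bl j = b, η j ^ D.l j = 1 := by
    intro b
    have h1 := pow_g D b η (fun _ => 1) (by rw [hηg b]; simp)
    rw [h1]; simp
  have hyQ : ∀ j, (τ j).coeff 0 * η j ≠ 0 := fun j => mul_ne_zero (hτ0 j) (hη0 j)
  obtain ⟨σ, γ, hσ, hγ0, hγ⟩ := hC D.bl D.l κ M D.l_pos hMpos hlM
    (by intro j; rw [hκ]; exact div_ne_zero (hx j) (hyQ j))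
    (by
      intro b
      change ∏ j with D.bl j = b, κ j ^ (D.l j / D.g b) = 1
      simp only [hκ, div_pow, mul_pow]
      rw [Finset.prod_div_distrib, Finset.prod_mul_distrib, hηg b, mul_one, hx1 b, div_self]
      exact Finset.prod_ne_zero_iff.mpr fun j _ => pow_ne_zero _ (hx j))
  obtain ⟨ρ, ρ', hinj, hρ, hρ', hρρ⟩ := hR γ hγ0
  obtain ⟨p, hpm, hpdeg, hp0, hpv⟩ := hH (Sum.elim ρ ρ') (Sum.elim s s) (Sum.elim k k) hinj (by
    rintro (j | j)
    · exact hρ j
    · exact hρ' j) (by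
    rintro (j | j)
    · exact hkpos j
    · exact hkpos j)
  have hne : ∀ j, ρ j ≠ ρ' j := by
    intro j h
    have := hinj (a₁ := Sum.inl j) (a₂ := Sum.inr j) h
    simp at this
  have hp1 : ∀ j, p.eval (ρ j) = s j := by
    intro j
    obtain ⟨r, hr, -⟩ := hpv (Sum.inl j)
    have h1 := congrArg (eval (ρ j)) hr
    simp only [Sum.elim_inl, eval_sub, eval_C, eval_mul, eval_pow, eval_X, sub_self,
      zero_pow (hkpos j).ne', zero_mul] at h1
    exact sub_eq_zero.mp h1
  have hp2 : ∀ j, p.eval (ρ' j) = s j := by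
    intro j
    obtain ⟨r, hr, -⟩ := hpv (Sum.inr j)
    have h1 := congrArg (eval (ρ' j)) hr
    simp only [Sum.elim_inr, eval_sub, eval_C, eval_mul, eval_pow, eval_X, sub_self,
      zero_pow (hkpos j).ne', zero_mul] at h1
    exact sub_eq_zero.mp h1
  have hEx : ∀ j, ∃ E : ℂ[X], p - C (s j) = ((X - C (ρ j)) * (X - C (ρ' j))) ^ k j * E ∧
      E.eval (ρ j) ≠ 0 ∧ E.eval (ρ' j) ≠ 0 := fun j =>
    exists_E p (s j) (ρ j) (ρ' j) (k j) (hne j) (hpv (Sum.inl j)) (hpv (Sum.inr j))
  choose E hE hE1 hE2 using hEx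
  obtain ⟨Dd, hDd⟩ : ∃ Dd : J → ℂ[X], Dd = fun j => (X - C (ρ j)) * (X - C (ρ' j)) := ⟨_, rfl⟩
  have hDm : ∀ j, (Dd j).Monic := by
    intro j; rw [hDd]; exact (monic_X_sub_C _).mul (monic_X_sub_C _)
  have hDdeg : ∀ j, (Dd j).natDegree = 2 := by
    intro j
    rw [hDd]
    change ((X - C (ρ j)) * (X - C (ρ' j))).natDegree = 2
    rw [(monic_X_sub_C _).natDegree_mul (monic_X_sub_C _), natDegree_X_sub_C, natDegree_X_sub_C]
  have hD0 : ∀ j, (Dd j).eval 0 = γ j := by
    intro j; rw [hDd]; simp [← hρρ j]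
  have hDr : ∀ j t, (Dd j).eval t = 0 ↔ t = ρ j ∨ t = ρ' j := by
    intro j t
    rw [hDd]
    simp [sub_eq_zero]
  obtain ⟨T, hT⟩ : ∃ T : J → ℂ[X], T = fun j => C (η j) * (E j) ^ m j *
      ((Q' j).comp p) * (Dd (σ j)) ^ (M / D.l j) := ⟨_, rfl⟩
  have key : ∀ j, T j * (Dd j) ^ (M / D.l j) =
      C (η j) * (τ j).comp p * (Dd (σ j)) ^ (M / D.l j) := by
    intro j
    have h1 : (τ j).comp p = (Dd j ^ k j * E j) ^ m j * (Q' j).comp p := by
      conv_lhs => rw [hQ j]
      rw [mul_comp, pow_comp, sub_comp, X_comp, C_comp, hE j, hDd]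
    rw [h1, hT]
    simp only [hMl, mul_pow, ← pow_mul]
    ring
  have hτp0 : ∀ j, (τ j).comp p ≠ 0 := by
    intro j h
    have h1 := congrArg leadingCoeff h
    rw [leadingCoeff_comp hpdeg.ne', hpm.leadingCoeff, one_pow, mul_one, leadingCoeff_zero] at h1
    exact hlead j h1
  have hpow0 : ∀ j (n : ℕ), (Dd j) ^ n ≠ 0 := fun j n => ((hDm j).pow n).ne_zero
  have hRHS : ∀ j, C (η j) * (τ j).comp p * (Dd (σ j)) ^ (M / D.l j) ≠ 0 := by
    intro j
    exact mul_ne_zero (mul_ne_zero (C_ne_zero.mpr (hη0 _)) (hτp0 j)) (hpow0 _ _)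
  have hT0 : ∀ j, T j ≠ 0 := by
    intro j h
    apply hRHS j
    rw [← key j, h, zero_mul]
  refine ⟨p.natDegree, T, u.comp p, v.comp p, hpdeg, ⟨?_, hT0, ?_, ?_, ?_⟩, ?_⟩
  · intro j
    have h1 := congrArg natDegree (key j)
    rw [natDegree_mul (hT0 j) (hpow0 _ _), natDegree_mul (mul_ne_zero (C_ne_zero.mpr (hη0 _))
      (hτp0 j)) (hpow0 _ _), natDegree_pow, natDegree_pow, hDdeg, hDdeg,
      natDegree_C_mul (hη0 _), natDegree_comp, hS.deg j] at h1
    have h2 := Nat.add_right_cancel h1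
    rw [h2]; ring
  · intro b
    rw [← hS.bal b, Finset.mul_sum]
    refine Finset.sum_congr rfl fun j _ => ?_
    ring
  · intro b
    unfold BData.uu
    have h1 : ∏ j with D.bl j = b, (C (η j) * (τ j).comp p) ^ D.l j =
        C (D.al b) * u.comp p + C (D.be b) * v.comp p := by
      have h2 := congrArg (fun f => f.comp p) (hS.rel b)
      unfold BData.uu at h2
      simp only [prod_comp, mul_comp, C_comp, pow_comp, add_comp] at h2
      rw [← h2]
      simp only [mul_pow]
      rw [Finset.prod_mul_distrib]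
      have h3 : ∏ j with D.bl j = b, C (η j) ^ D.l j = (1 : ℂ[X]) := by
        have h4 := congrArg (C : ℂ → ℂ[X]) (hηl b)
        rw [map_prod, C_1] at h4
        simpa only [map_pow] using h4
      rw [h3, one_mul]
    rw [← h1]
    have h2 : (∏ j with D.bl j = b, T j ^ D.l j) * ∏ j with D.bl j = b, (Dd j) ^ M =
        (∏ j with D.bl j = b, (C (η j) * (τ j).comp p) ^ D.l j) *
          ∏ j with D.bl j = b, (Dd j) ^ M := by
      have h3 : ∏ j with D.bl j = b, (Dd j) ^ M = ∏ j with D.bl j = b, (Dd (σ j)) ^ M := by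
        symm
        apply Finset.prod_equiv σ
        · intro i
          simp only [Finset.mem_filter, Finset.mem_univ, true_and]
          rw [hσ]
        · intro i _
          rfl
      conv_rhs => rw [h3]
      rw [← Finset.prod_mul_distrib, ← Finset.prod_mul_distrib]
      apply Finset.prod_congr rfl
      intro j hj
      have h5 := congrArg (fun f => f ^ D.l j) (key j)
      simp only [mul_pow, ← pow_mul, hMl'] at h5
      rw [h5]
      simp only [mul_pow]
    refine mul_right_cancel₀ ?_ h2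
    exact Finset.prod_ne_zero_iff.mpr fun j _ => hpow0 _ _
  · -- coprimality
    have hroot : ∀ j t, (T j).eval t = 0 →
        (t ≠ ρ j ∧ t ≠ ρ' j ∧ (τ j).eval (p.eval t) = 0) ∨ (t = ρ (σ j) ∨ t = ρ' (σ j)) := by
      intro j t ht
      rw [hT] at ht
      simp only [eval_mul, eval_pow, eval_C, eval_comp] at ht
      have hQe : ∀ r, (τ j).eval r = (r - s j) ^ m j * (Q' j).eval r := by
        intro r
        conv_lhs => rw [hQ j]
        simp
      rcases mul_eq_zero.mp ht with ht | ht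
      · rcases mul_eq_zero.mp ht with ht | ht
        · rcases mul_eq_zero.mp ht with ht | ht
          · exact absurd ht (hη0 _)
          · left
            have ht' := pow_eq_zero_iff (hmpos _).ne' |>.mp ht
            have h1 := congrArg (eval t) (hE j)
            rw [eval_mul, ht', mul_zero, eval_sub, eval_C] at h1
            refine ⟨?_, ?_, ?_⟩
            · rintro rfl; exact hE1 j ht'
            · rintro rfl; exact hE2 j ht'
            · rw [hQe, h1, zero_pow (hmpos _).ne', zero_mul]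
        · left
          refine ⟨?_, ?_, ?_⟩
          · rintro rfl
            rw [hp1] at ht
            exact hQ' j ht
          · rintro rfl
            rw [hp2] at ht
            exact hQ' j ht
          · rw [hQe, ht, mul_zero]
      · right
        have hMl0 : M / D.l j ≠ 0 := by
          rw [hMl]; exact (Nat.mul_pos (hkpos j) (hmpos j)).ne'
        have ht' := pow_eq_zero_iff hMl0 |>.mp ht
        exact (hDr _ _).mp ht'
    have hB : ∀ i t, (t = ρ i ∨ t = ρ' i) → (τ i).eval (p.eval t) = 0 := by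
      intro i t ht
      have h1 : p.eval t = s i := by
        rcases ht with rfl | rfl
        · exact hp1 i
        · exact hp2 i
      rw [h1, hs i]
    have hQQ' : ∀ i j r, (τ i).eval r = 0 → (τ j).eval r = 0 → i = j := by
      intro i j r h1 h2
      by_contra hij
      exact (coprime_iff _ _).mp (hS.cop i j hij) r h1 h2
    have hρi : ∀ i j t, (t = ρ i ∨ t = ρ' i) → (t = ρ j ∨ t = ρ' j) → i = j := by
      intro i j t h1 h2
      exact hQQ' i j (p.eval t) (hB _ _ h1) (hB _ _ h2)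
    intro j j' hjj
    rw [coprime_iff]
    intro t h1 h2
    rcases hroot j t h1 with a1 | a1 <;> rcases hroot j' t h2 with a2 | a2
    · exact hjj (hQQ' _ _ _ a1.2.2 a2.2.2)
    · have := hQQ' _ _ _ a1.2.2 (hB _ _ a2)
      rw [← this] at a2
      rcases a2 with a2 | a2
      · exact a1.1 a2
      · exact a1.2.1 a2
    · have := hQQ' _ _ _ a2.2.2 (hB _ _ a1)
      rw [← this] at a1
      rcases a1 with a1 | a1
      · exact a2.1 a1
      · exact a2.2.1 a1
    · exact hjj (σ.injective (hρi _ _ _ a1 a2))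
  · intro j
    constructor
    · have h1 := congrArg (eval 0) (key j)
      rw [eval_mul, eval_mul, eval_mul, eval_C, eval_pow, eval_pow, hD0, hD0, eval_comp, hp0,
        ← coeff_zero_eq_eval_zero, ← coeff_zero_eq_eval_zero] at h1
      have h2 := hγ j
      rw [hκ, div_pow] at h2
      have h3 : γ j ^ (M / D.l j) ≠ 0 := pow_ne_zero _ (hγ0 j)
      apply mul_right_cancel₀ h3
      rw [h1]
      have h4 := hyQ j
      rw [div_eq_div_iff h3 h4] at h2
      linear_combination h2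
    · have h1 := congrArg leadingCoeff (key j)
      rw [leadingCoeff_mul, leadingCoeff_mul, leadingCoeff_mul, leadingCoeff_C,
        ((hDm _).pow _).leadingCoeff, ((hDm _).pow _).leadingCoeff,
        leadingCoeff_comp hpdeg.ne', hpm.leadingCoeff, one_pow,
        mul_one, mul_one, mul_one] at h1
      rw [h1, hη]
      exact div_mul_cancel₀ _ (hlead j)

end Pool.C1.helper73
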