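import Pool.Agent.Work.MP_dcf6a6_c1.Interface

/-! Block KS: regularity of the solutions with Riemann-Hurwitz equality. -/

namespace Pool.C1.helper73.KS

open Polynomial

lemma par (n0 n1 n2 w0 w1 w2 : ℂ[X]) (h0 : n0 ≠ 0) (h01 : IsCoprime n0 n1)
    (h1 : w0 * n1 = w1 * n0) (h2 : w0 * n2 = w2 * n0) :
    ∃ g : ℂ[X], w0 = g * n0 ∧ w1 = g * n1 ∧ w2 = g * n2 := by
  have hd : n0 ∣ w0 * n1 := ⟨w1, by rw [h1, mul_comm]⟩
  obtain ⟨g, hg⟩ := h01.dvd_of_dvd_mul_right hd
  refine ⟨g, by rw [hg, mul_comm], ?_, ?_⟩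
  · apply mul_right_cancel₀ h0
    rw [← h1, hg]; ring
  · apply mul_right_cancel₀ h0
    rw [← h2, hg]; ring

lemma cross (a0 a1 a2 b0 b1 b2 n0 n1 n2 : ℂ[X]) (ha : n0 * a0 + n1 * a1 + n2 * a2 = 0)
    (hb : n0 * b0 + n1 * b1 + n2 * b2 = 0) (h0 : n0 ≠ 0) (h01 : IsCoprime n0 n1) :
    ∃ g : ℂ[X], a1 * b2 - a2 * b1 = g * n0 ∧ a2 * b0 - a0 * b2 = g * n1 ∧
      a0 * b1 - a1 * b0 = g * n2 := by
  apply par n0 n1 n2 _ _ _ h0 h01
  · linear_combination b2 * ha - a2 * hb
  · linear_combination (-b1) * ha + a1 * hb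

lemma natDegree_le_of_coeff (p : ℂ[X]) (n : ℕ) (h : p.natDegree ≤ n + 1)
    (h2 : p.coeff (n + 1) = 0) : p.natDegree ≤ n := by
  rw [natDegree_le_iff_coeff_eq_zero]
  intro N hN
  rcases Nat.lt_or_ge (n + 1) N with h3 | h3
  · exact coeff_eq_zero_of_natDegree_lt (lt_of_le_of_lt h h3)
  · have : N = n + 1 := by omega
    rw [this, h2]

lemma natDegree_quot (w n g : ℂ[X]) (a b : ℕ) (hw : w = g * n) (hn : n ≠ 0)
    (hnd : n.natDegree = a) (hwd : w.natDegree ≤ a + b) : g.natDegree ≤ b := by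
  by_cases hg : g = 0
  · rw [hg, natDegree_zero]; exact Nat.zero_le _
  · rw [hw, natDegree_mul hg hn, hnd] at hwd
    omega

/-- the top coefficient of the derivative -/
lemma coeff_der (p : ℂ[X]) (c : ℕ) : (derivative p).coeff c = p.coeff (c + 1) * (c + 1) := by
  rw [coeff_derivative]

lemma natDegree_der (p : ℂ[X]) (c : ℕ) (h : p.natDegree = c + 1) :
    (derivative p).natDegree ≤ c := by
  have := natDegree_derivative_le p
  omega

/-- the Wronskian-like combination has lower degree -/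
lemma wr_deg (p q : ℂ[X]) (a b : ℕ) (hp : p.natDegree = a + 1) (hq : q.natDegree = b + 1) :
    (derivative p * (C (((b + 1 : ℕ) : ℂ)) * q) - derivative q * (C (((a + 1 : ℕ) : ℂ)) * p)).natDegree
      ≤ a + b := by
  have h1 := natDegree_der p a hp
  have h2 := natDegree_der q b hq
  have h3 : (C (((b + 1 : ℕ) : ℂ)) * q).natDegree ≤ b + 1 := (natDegree_C_mul_le _ _).trans hq.le
  have h4 : (C (((a + 1 : ℕ) : ℂ)) * p).natDegree ≤ a + 1 := (natDegree_C_mul_le _ _).trans hp.le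
  apply natDegree_le_of_coeff
  · refine (natDegree_sub_le _ _).trans (max_le ?_ ?_)
    · exact (natDegree_mul_le.trans (Nat.add_le_add h1 h3)).trans (by omega)
    · exact (natDegree_mul_le.trans (Nat.add_le_add h2 h4)).trans (by omega)
  · rw [coeff_sub]
    have e1 : a + b + 1 = a + (b + 1) := by ring
    have e2 : a + b + 1 = b + (a + 1) := by ring
    rw [show (derivative p * (C (((b + 1 : ℕ) : ℂ)) * q)).coeff (a + b + 1) =
        (derivative p).coeff a * (C (((b + 1 : ℕ) : ℂ)) * q).coeff (b + 1) by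
      rw [e1]; exact coeff_mul_add_eq_of_natDegree_le h1 h3]
    rw [show (derivative q * (C (((a + 1 : ℕ) : ℂ)) * p)).coeff (a + b + 1) =
        (derivative q).coeff b * (C (((a + 1 : ℕ) : ℂ)) * p).coeff (a + 1) by
      rw [e2]; exact coeff_mul_add_eq_of_natDegree_le h2 h4]
    rw [coeff_der, coeff_der, coeff_C_mul, coeff_C_mul]
    push_cast
    ring

end Pool.C1.helper73.KS

namespace Pool.C1.helper73

open Polynomial KS

theorem stmt_KS : Stmt_KS := by
  classical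
  intro a c d κ τ hc hac hsum hκ hτ hcop hrel P hP
  -- write `c i = e i + 1`
  obtain ⟨e, he⟩ : ∃ e : Fin 3 → ℕ, ∀ i, c i = e i + 1 :=
    ⟨fun i => c i - 1, fun i => by have := hc i; show c i = c i - 1 + 1; omega⟩
  have ha : ∀ i, 0 < a i := by
    intro i
    rcases Nat.eq_zero_or_pos (a i) with h | h
    · have h1 := hac i
      rw [h, zero_mul] at h1
      rw [← h1] at hsum
      have h2 := hac 0
      have h3 := hac 1
      have h4 := hac 2
      rw [Fin.sum_univ_three, he, he, he] at hsum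
      rw [← h1] at h2 h3 h4
      omega
    · exact h
  set ν : Fin 3 → ℂ[X] := fun i => C (κ i * a i) * τ i ^ (a i - 1) with hν
  have hκa : ∀ i, κ i * a i ≠ 0 := fun i =>
    mul_ne_zero (hκ i) (Nat.cast_ne_zero.mpr (ha i).ne')
  have hν0 : ∀ i, ν i ≠ 0 := fun i =>
    mul_ne_zero (C_ne_zero.mpr (hκa i)) (pow_ne_zero _ (hτ i).1)
  have hνc : ∀ i j, i ≠ j → IsCoprime (ν i) (ν j) := by
    intro i j hij
    have h1 : IsCoprime (τ i ^ (a i - 1)) (τ j ^ (a j - 1)) := (hcop i j hij).pow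
    have h2 : IsUnit (C (κ i * a i) : ℂ[X]) := isUnit_C.mpr (isUnit_iff_ne_zero.mpr (hκa i))
    have h3 : IsUnit (C (κ j * a j) : ℂ[X]) := isUnit_C.mpr (isUnit_iff_ne_zero.mpr (hκa j))
    exact (isCoprime_mul_unit_left_left h2 _ _).mpr ((isCoprime_mul_unit_left_right h3 _ _).mpr h1)
  have hνd : ∀ i, (ν i).natDegree + c i = d := by
    intro i
    have h1 : (ν i).natDegree = (a i - 1) * c i := by
      simp only [hν]
      rw [natDegree_C_mul (hκa i), natDegree_pow, (hτ i).2]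
    rw [h1, ← hac i]
    obtain ⟨b, hb⟩ : ∃ b, a i = b + 1 := ⟨a i - 1, by have := ha i; omega⟩
    rw [hb, Nat.add_sub_cancel]; ring
  have hsum' : c 0 + c 1 + c 2 = d + 2 := by rw [← hsum, Fin.sum_univ_three]
  have hd0 : (ν 0).natDegree = e 1 + e 2 := by have := hνd 0; have := he 0; have := he 1; have := he 2; omega
  have hd1 : (ν 1).natDegree = e 2 + e 0 := by have := hνd 1; have := he 0; have := he 1; have := he 2; omega
  have hd2 : (ν 2).natDegree = e 0 + e 1 := by have := hνd 2; have := he 0; have := he 1; have := he 2; omega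
  have hτd : ∀ i, (τ i).natDegree = e i + 1 := fun i => by rw [(hτ i).2, he]
  -- the two syzygies
  have hsy1 : ν 0 * derivative (τ 0) + ν 1 * derivative (τ 1) + ν 2 * derivative (τ 2) = 0 := by
    have h1 := congrArg derivative hrel
    rw [derivative_zero, derivative_sum, Fin.sum_univ_three] at h1
    simp only [derivative_mul, derivative_C, zero_mul, zero_add, derivative_pow] at h1
    rw [← h1]
    simp only [hν, C_mul, C_eq_natCast]
    ring
  have hsy2 : ν 0 * (C (((e 0 + 1 : ℕ) : ℂ)) * τ 0) + ν 1 * (C (((e 1 + 1 : ℕ) : ℂ)) * τ 1) +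
      ν 2 * (C (((e 2 + 1 : ℕ) : ℂ)) * τ 2) = 0 := by
    have h1 : ∀ i, ν i * (C (((e i + 1 : ℕ) : ℂ)) * τ i) = C (d : ℂ) * (C (κ i) * τ i ^ a i) := by
      intro i
      simp only [hν]
      have h2 : τ i ^ a i = τ i ^ (a i - 1) * τ i := by
        rw [← pow_succ, Nat.sub_add_cancel (ha i)]
      rw [h2, ← he i, ← hac i]
      push_cast
      simp only [C_mul]
      ring
    rw [h1, h1, h1, ← mul_add, ← mul_add, ← Fin.sum_univ_three (fun i => C (κ i) * τ i ^ a i),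
      hrel, mul_zero]
  obtain ⟨lam, hl0, hl1, hl2⟩ := cross (derivative (τ 0)) (derivative (τ 1)) (derivative (τ 2))
    (C (((e 0 + 1 : ℕ) : ℂ)) * τ 0) (C (((e 1 + 1 : ℕ) : ℂ)) * τ 1) (C (((e 2 + 1 : ℕ) : ℂ)) * τ 2)
    (ν 0) (ν 1) (ν 2) hsy1 hsy2 (hν0 0) (hνc 0 1 (by decide))
  -- `lam` is a nonzero constant
  have hlamd : lam.natDegree ≤ 0 :=
    natDegree_quot _ _ _ (e 0 + e 1) 0 hl2 (hν0 2) hd2
      (wr_deg (τ 0) (τ 1) (e 0) (e 1) (hτd 0) (hτd 1))
  obtain ⟨l, hl⟩ : ∃ l : ℂ, lam = C l := ⟨_, eq_C_of_natDegree_le_zero hlamd⟩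
  have hl00 : l ≠ 0 := by
    rintro rfl
    rw [hl, C_0, zero_mul, sub_eq_zero] at hl2
    have h1 : τ 0 ∣ derivative (τ 0) * (C (((e 1 + 1 : ℕ) : ℂ)) * τ 1) := by
      rw [hl2]; exact ⟨derivative (τ 1) * C (((e 0 + 1 : ℕ) : ℂ)), by ring⟩
    have h2 : IsCoprime (τ 0) (C (((e 1 + 1 : ℕ) : ℂ)) * τ 1) := by
      refine (isCoprime_mul_unit_left_right ?_ _ _).mpr (hcop 0 1 (by decide))
      exact isUnit_C.mpr (isUnit_iff_ne_zero.mpr (Nat.cast_ne_zero.mpr (Nat.succ_ne_zero _)))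
    have h3 := h2.dvd_of_dvd_mul_right h1
    have h4 : derivative (τ 0) ≠ 0 := by
      intro h
      have h5 := derivative_eq_zero.mp h
      rw [hτd] at h5
      omega
    have h5 := natDegree_le_of_dvd h3 h4
    have h6 := natDegree_der (τ 0) (e 0) (hτd 0)
    rw [hτd] at h5
    omega
  rw [hl] at hl0 hl1 hl2
  -- the structure of the kernel
  have hker : ∀ σ : Fin 3 → ℂ[X], (∀ i, (σ i).natDegree ≤ c i) → ∑ i, ν i * σ i = 0 →
      ∃ f g : ℂ[X], f.natDegree ≤ 2 ∧ g.natDegree ≤ 1 ∧ f.coeff 2 = g.coeff 1 ∧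
        ∀ k, C l * σ k = f * derivative (τ k) - g * (C (((e k + 1 : ℕ) : ℂ)) * τ k) := by
    intro σ hσ h0
    have hσ' : ∀ i, (σ i).natDegree ≤ e i + 1 := fun i => by rw [← he]; exact hσ i
    rw [Fin.sum_univ_three] at h0
    obtain ⟨f, hf0, hf1, hf2⟩ := cross (σ 0) (σ 1) (σ 2)
      (C (((e 0 + 1 : ℕ) : ℂ)) * τ 0) (C (((e 1 + 1 : ℕ) : ℂ)) * τ 1)
      (C (((e 2 + 1 : ℕ) : ℂ)) * τ 2) (ν 0) (ν 1) (ν 2) h0 hsy2 (hν0 0) (hνc 0 1 (by decide))
    obtain ⟨g, hg0, hg1, hg2⟩ := cross (σ 0) (σ 1) (σ 2)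
      (derivative (τ 0)) (derivative (τ 1)) (derivative (τ 2)) (ν 0) (ν 1) (ν 2) h0 hsy1
      (hν0 0) (hνc 0 1 (by decide))
    have hcτ : ∀ i, (C (((e i + 1 : ℕ) : ℂ)) * τ i).natDegree ≤ e i + 1 := fun i =>
      (natDegree_C_mul_le _ _).trans (hτd i).le
    have hfd : f.natDegree ≤ 2 := by
      refine natDegree_quot _ _ _ (e 0 + e 1) 2 hf2 (hν0 2) hd2 ?_
      refine (natDegree_sub_le _ _).trans (max_le ?_ ?_)
      · exact (natDegree_mul_le.trans (Nat.add_le_add (hσ' 0) (hcτ 1))).trans (by omega)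
      · exact (natDegree_mul_le.trans (Nat.add_le_add (hσ' 1) (hcτ 0))).trans (by omega)
    have hgd : g.natDegree ≤ 1 := by
      refine natDegree_quot _ _ _ (e 0 + e 1) 1 hg2 (hν0 2) hd2 ?_
      refine (natDegree_sub_le _ _).trans (max_le ?_ ?_)
      · exact (natDegree_mul_le.trans (Nat.add_le_add (hσ' 0)
          (natDegree_der _ _ (hτd 1)))).trans (by omega)
      · exact (natDegree_mul_le.trans (Nat.add_le_add (hσ' 1)
          (natDegree_der _ _ (hτd 0)))).trans (by omega)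
    have hk : ∀ k, C l * σ k = f * derivative (τ k) - g * (C (((e k + 1 : ℕ) : ℂ)) * τ k) := by
      have k0 : C l * σ 0 = f * derivative (τ 0) - g * (C (((e 0 + 1 : ℕ) : ℂ)) * τ 0) := by
        apply mul_right_cancel₀ (hν0 2)
        linear_combination (-σ 0) * hl2 + derivative (τ 0) * hf2 -
          (C (((e 0 + 1 : ℕ) : ℂ)) * τ 0) * hg2
      have k1 : C l * σ 1 = f * derivative (τ 1) - g * (C (((e 1 + 1 : ℕ) : ℂ)) * τ 1) := by
        apply mul_right_cancel₀ (hν0 2)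
        linear_combination (-σ 1) * hl2 + derivative (τ 1) * hf2 -
          (C (((e 1 + 1 : ℕ) : ℂ)) * τ 1) * hg2
      have k2 : C l * σ 2 = f * derivative (τ 2) - g * (C (((e 2 + 1 : ℕ) : ℂ)) * τ 2) := by
        apply mul_right_cancel₀ (hν0 0)
        linear_combination (-σ 2) * hl0 + derivative (τ 2) * hf0 -
          (C (((e 2 + 1 : ℕ) : ℂ)) * τ 2) * hg0
      intro k
      fin_cases k
      · exact k0
      · exact k1
      · exact k2
    refine ⟨f, g, hfd, hgd, ?_, hk⟩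
    have h1 := congrArg (fun p => p.coeff (e 0 + 2)) (hk 0)
    simp only [coeff_sub] at h1
    have h2 : (C l * σ 0).coeff (e 0 + 2) = 0 := by
      rw [coeff_C_mul, coeff_eq_zero_of_natDegree_lt, mul_zero]
      have := hσ' 0; omega
    have h3 : (f * derivative (τ 0)).coeff (e 0 + 2) = f.coeff 2 * (derivative (τ 0)).coeff (e 0) := by
      rw [show e 0 + 2 = 2 + e 0 by ring]
      exact coeff_mul_add_eq_of_natDegree_le hfd (natDegree_der _ _ (hτd 0))
    have h4 : (g * (C (((e 0 + 1 : ℕ) : ℂ)) * τ 0)).coeff (e 0 + 2) =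
        g.coeff 1 * (C (((e 0 + 1 : ℕ) : ℂ)) * τ 0).coeff (e 0 + 1) := by
      rw [show e 0 + 2 = 1 + (e 0 + 1) by ring]
      exact coeff_mul_add_eq_of_natDegree_le hgd (hcτ 0)
    rw [h2, h3, h4, coeff_der, coeff_C_mul] at h1
    have h5 : (τ 0).coeff (e 0 + 1) ≠ 0 := by
      rw [← hτd 0]; exact leadingCoeff_ne_zero.mpr (hτ 0).1
    have h6 : ((e 0 : ℂ) + 1) ≠ 0 := by
      have : ((e 0 + 1 : ℕ) : ℂ) ≠ 0 := Nat.cast_ne_zero.mpr (Nat.succ_ne_zero _)
      rwa [Nat.cast_add, Nat.cast_one] at this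
    have h7 : (τ 0).coeff (e 0 + 1) * ((e 0 : ℂ) + 1) ≠ 0 := mul_ne_zero h5 h6
    apply mul_right_cancel₀ h7
    push_cast at h1
    linear_combination -h1
  -- the linear map
  let V := (i : Fin 3) → degreeLT ℂ (c i + 1)
  let ι : V →ₗ[ℂ] (Fin 3 → ℂ[X]) :=
    LinearMap.pi fun i => (Submodule.subtype _).comp (LinearMap.proj i)
  have hι : Function.Injective ι := by
    intro x y h
    funext i
    exact Subtype.ext (congrFun h i)
  let Λ0 : (Fin 3 → ℂ[X]) →ₗ[ℂ] ℂ[X] :=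
    ∑ i, (LinearMap.mulLeft ℂ (ν i)).comp (LinearMap.proj i)
  have hΛ0 : ∀ σ, Λ0 σ = ∑ i, ν i * σ i := by
    intro σ
    simp only [Λ0, LinearMap.sum_apply, LinearMap.comp_apply, LinearMap.proj_apply,
      LinearMap.mulLeft_apply]
  have hVd : ∀ (x : V) i, ((x i : ℂ[X])).natDegree ≤ c i := by
    intro x i
    have := (x i).2
    rw [mem_degreeLT] at this
    by_cases h : (x i : ℂ[X]) = 0
    · rw [h, natDegree_zero]; exact Nat.zero_le _
    · have := (natDegree_lt_iff_degree_lt h).mpr this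
      omega
  have hmem : ∀ x : V, (Λ0.comp ι) x ∈ degreeLT ℂ (d + 1) := by
    intro x
    rw [LinearMap.comp_apply, hΛ0]
    refine Submodule.sum_mem _ fun i _ => ?_
    rw [mem_degreeLT]
    refine degree_le_natDegree.trans_lt ?_
    have h1 : (ν i * ι x i).natDegree ≤ d := by
      refine natDegree_mul_le.trans ?_
      have := hVd x i
      have := hνd i
      change (ν i).natDegree + ((x i : ℂ[X])).natDegree ≤ d
      omega
    exact_mod_cast Nat.lt_succ_of_le h1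
  let Λ : V →ₗ[ℂ] degreeLT ℂ (d + 1) := (Λ0.comp ι).codRestrict _ hmem
  let Ψ : (Fin 4 → ℂ) →ₗ[ℂ] (Fin 3 → ℂ[X]) :=
    { toFun := fun z k => C l⁻¹ * ((C (z 0) + C (z 1) * X + C (z 3) * X ^ 2) * derivative (τ k) -
        (C (z 2) + C (z 3) * X) * (C (((e k + 1 : ℕ) : ℂ)) * τ k))
      map_add' := fun z z' => by
        funext k
        simp only [Pi.add_apply, C_add]
        ring
      map_smul' := fun r z => by
        funext k
        simp only [Pi.smul_apply, smul_eq_mul, C_mul, RingHom.id_apply, smul_eq_C_mul]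
        ring }
  have hle : (LinearMap.ker Λ).map ι ≤ LinearMap.range Ψ := by
    rintro _ ⟨x, hx, rfl⟩
    have hx' : ∑ i, ν i * (x i : ℂ[X]) = 0 := by
      have h1 := congrArg Subtype.val (LinearMap.mem_ker.mp hx)
      change (Λ0.comp ι) x = 0 at h1
      rw [LinearMap.comp_apply, hΛ0] at h1
      exact h1
    obtain ⟨f, g, hf, hg, hfg, hk⟩ := hker (fun i => (x i : ℂ[X])) (hVd x) hx'
    refine ⟨![f.coeff 0, f.coeff 1, g.coeff 0, g.coeff 1], ?_⟩
    funext k
    have h1 : f = C (f.coeff 0) + C (f.coeff 1) * X + C (f.coeff 2) * X ^ 2 := by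
      conv_lhs => rw [f.as_sum_range' 3 (by omega)]
      simp [Finset.sum_range_succ, ← C_mul_X_pow_eq_monomial]
    have h2 : g = C (g.coeff 0) + C (g.coeff 1) * X := by
      conv_lhs => rw [g.as_sum_range' 2 (by omega)]
      simp [Finset.sum_range_succ, ← C_mul_X_pow_eq_monomial]
    change C l⁻¹ * ((C (f.coeff 0) + C (f.coeff 1) * X + C (g.coeff 1) * X ^ 2) * derivative (τ k) -
        (C (g.coeff 0) + C (g.coeff 1) * X) * (C (((e k + 1 : ℕ) : ℂ)) * τ k)) = (x k : ℂ[X])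
    rw [← hfg, ← h1, hfg, ← h2, ← hk k, ← mul_assoc, ← C_mul, inv_mul_cancel₀ hl00, C_1, one_mul]
  have hfin : Module.Finite ℂ V := inferInstance
  have hkd : Module.finrank ℂ (LinearMap.ker Λ) ≤ 4 := by
    have h1 : Module.finrank ℂ (LinearMap.ker Λ) =
        Module.finrank ℂ ((LinearMap.ker Λ).map ι) :=
      (Submodule.equivMapOfInjective ι hι (LinearMap.ker Λ)).finrank_eq
    have h2 := Submodule.finrank_mono hle
    have h3 := LinearMap.finrank_range_le Ψ
    rw [Module.finrank_fin_fun] at h3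
    omega
  have hV : Module.finrank ℂ V = d + 5 := by
    have h1 : ∀ n, Module.finrank ℂ (degreeLT ℂ n) = n := fun n => by
      rw [(degreeLTEquiv ℂ n).finrank_eq, Module.finrank_fin_fun]
    change Module.finrank ℂ ((i : Fin 3) → degreeLT ℂ (c i + 1)) = _
    rw [Module.finrank_pi_fintype, Fin.sum_univ_three, h1, h1, h1]
    omega
  have hW : Module.finrank ℂ (degreeLT ℂ (d + 1)) = d + 1 := by
    rw [(degreeLTEquiv ℂ (d + 1)).finrank_eq, Module.finrank_fin_fun]
  have hrn := LinearMap.finrank_range_add_finrank_ker Λ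
  have hrle : Module.finrank ℂ (LinearMap.range Λ) ≤ d + 1 :=
    (Submodule.finrank_le _).trans hW.le
  have htop : LinearMap.range Λ = ⊤ := by
    apply Submodule.eq_top_of_finrank_eq
    rw [hW]
    rw [hV] at hrn
    omega
  have hPmem : P ∈ degreeLT ℂ (d + 1) := by
    rw [mem_degreeLT]
    refine degree_le_natDegree.trans_lt ?_
    exact_mod_cast Nat.lt_succ_of_le hP
  obtain ⟨x, hx⟩ : (⟨P, hPmem⟩ : degreeLT ℂ (d + 1)) ∈ LinearMap.range Λ := by
    rw [htop]; trivial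
  refine ⟨fun i => (x i : ℂ[X]), hVd x, ?_⟩
  have h1 := congrArg Subtype.val hx
  change (Λ0.comp ι) x = P at h1
  rw [LinearMap.comp_apply, hΛ0] at h1
  rw [← h1]
  rfl

end Pool.C1.helper73
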