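import Pool.Agent.Work.MP_dcf6a6_c1.Basic

/-! Block RG0: regularity relative to the value at an unramified point. -/

namespace Pool.C1.helper73

open Polynomial

theorem stmt_RG0 : Stmt_RG0 := by
  classical
  intro J B _ _ _ _ D c d τ u v q hS hR hG P hP
  obtain ⟨hτ0, hv0, huv, h1⟩ := hG
  obtain ⟨σ, p, r, hσ, hp, hr, hdu⟩ := hR P fun b => (hP b).1
  -- the Wronskian at zero
  set W : ℂ := u.coeff 0 * v.coeff 1 - v.coeff 0 * u.coeff 1 with hW
  have hW0 : W ≠ 0 := by
    have h2 : W = -(v.coeff 0) * (u - C q * v).coeff 1 := by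
      rw [hW, huv, coeff_sub, coeff_C_mul]; ring
    rw [h2]
    exact mul_ne_zero (neg_ne_zero.mpr hv0) h1
  -- the constants
  obtain ⟨L, γ, hL1, hL2⟩ : ∃ L γ : ℂ, p.coeff 0 + L * u.coeff 0 + γ * u.coeff 1 = 0 ∧
      r.coeff 0 + L * v.coeff 0 + γ * v.coeff 1 = 0 := by
    refine ⟨(r.coeff 0 * u.coeff 1 - p.coeff 0 * v.coeff 1) / W,
      (p.coeff 0 * v.coeff 0 - r.coeff 0 * u.coeff 0) / W, ?_, ?_⟩
    · field_simp
      rw [hW]; ring
    · field_simp
      rw [hW]; ring
  obtain ⟨e, he⟩ : ∃ e : J → ℂ, ∀ j, (σ j).coeff 0 + e j * (τ j).coeff 0 +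
      γ * (τ j).coeff 1 = 0 := by
    refine ⟨fun j => -((σ j).coeff 0 + γ * (τ j).coeff 1) / (τ j).coeff 0, fun j => ?_⟩
    have := hτ0 j
    field_simp
    ring
  have hder0 : ∀ f : ℂ[X], (derivative f).coeff 0 = f.coeff 1 := fun f => by
    rw [coeff_derivative]; simp
  -- the new direction
  set σ' : J → ℂ[X] := fun j => σ j + (C (e j) * τ j + C γ * derivative (τ j)) with hσ'
  have hdu' : ∀ b, D.du τ σ' b = D.du τ σ b +
      (C (∑ j with D.bl j = b, (D.l j : ℂ) * e j) * D.uu τ b + C γ * derivative (D.uu τ b)) := by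
    intro b
    rw [hσ', D.du_add τ σ (fun j => C (e j) * τ j + C γ * derivative (τ j)) b,
      D.du_add τ (fun j => C (e j) * τ j) (fun j => C γ * derivative (τ j)) b,
      D.du_torus, D.du_smul τ (fun j => derivative (τ j)) (C γ) b, D.du_derivative]
  have hσ'0 : ∀ j, (σ' j).coeff 0 = 0 := by
    intro j
    simp only [hσ', coeff_add, coeff_C_mul, hder0]
    linear_combination he j
  have hdu0 : ∀ b, (D.du τ σ' b).coeff 0 = 0 := by
    intro b
    unfold BData.du
    rw [finsetSum_coeff]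
    refine Finset.sum_eq_zero fun j _ => ?_
    rw [mul_coeff_zero, mul_coeff_zero, hσ'0, mul_zero, zero_mul]
  have huu0 : ∀ b, (D.uu τ b).coeff 0 ≠ 0 := by
    intro b
    rw [coeff_zero_eq_eval_zero, D.eval_uu]
    refine Finset.prod_ne_zero_iff.mpr fun j _ => pow_ne_zero _ ?_
    rw [← coeff_zero_eq_eval_zero]; exact hτ0 j
  have hsum : ∀ b, ∑ j with D.bl j = b, (D.l j : ℂ) * e j = L := by
    intro b
    have h2 := hdu0 b
    rw [hdu', hdu b] at h2
    simp only [coeff_add, coeff_C_mul, hder0, (hP b).2, add_zero] at h2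
    have h3 : (D.uu τ b).coeff 0 = D.al b * u.coeff 0 + D.be b * v.coeff 0 := by
      rw [hS.rel, coeff_add, coeff_C_mul, coeff_C_mul]
    have h4 : (D.uu τ b).coeff 1 = D.al b * u.coeff 1 + D.be b * v.coeff 1 := by
      rw [hS.rel, coeff_add, coeff_C_mul, coeff_C_mul]
    have h5 : (∑ j with D.bl j = b, (D.l j : ℂ) * e j) * (D.uu τ b).coeff 0 =
        L * (D.uu τ b).coeff 0 := by
      rw [h4] at h2
      rw [h3] at h2 ⊢
      linear_combination h2 - D.al b * hL1 - D.be b * hL2
    exact mul_right_cancel₀ (huu0 b) h5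
  have hderd : ∀ (f : ℂ[X]) (n : ℕ), f.natDegree ≤ n → (derivative f).natDegree ≤ n := by
    intro f n hf
    exact (natDegree_derivative_le f).trans ((Nat.sub_le _ _).trans hf)
  refine ⟨σ', p + (C L * u + C γ * derivative u), r + (C L * v + C γ * derivative v),
    fun j => ⟨?_, hσ'0 j⟩, ⟨?_, ?_⟩, ⟨?_, ?_⟩, ?_⟩
  · refine natDegree_add_le_of_degree_le (hσ j) (natDegree_add_le_of_degree_le ?_ ?_)
    · exact (natDegree_C_mul_le _ _).trans (hS.deg j).le
    · exact (natDegree_C_mul_le _ _).trans (hderd _ _ (hS.deg j).le)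
  · refine natDegree_add_le_of_degree_le hp (natDegree_add_le_of_degree_le ?_ ?_)
    · exact (natDegree_C_mul_le _ _).trans hS.u_natDegree
    · exact (natDegree_C_mul_le _ _).trans (hderd _ _ hS.u_natDegree)
  · simp only [coeff_add, coeff_C_mul, hder0]
    linear_combination hL1
  · refine natDegree_add_le_of_degree_le hr (natDegree_add_le_of_degree_le ?_ ?_)
    · exact (natDegree_C_mul_le _ _).trans hS.v_natDegree
    · exact (natDegree_C_mul_le _ _).trans (hderd _ _ hS.v_natDegree)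
  · simp only [coeff_add, coeff_C_mul, hder0]
    linear_combination hL2
  · intro b
    rw [hdu', hsum, hdu b, hS.rel b]
    simp only [derivative_add, derivative_mul, derivative_C, zero_mul, zero_add]
    ring

end Pool.C1.helper73
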