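import Pool.Agent.Work.MP_dcf6a6_c1.Main
import Pool.Agent.Work.MP_dcf6a6_c1_helper83.IFT
import Pool.Agent.Work.MP_dcf6a6_c1_helper83.LIN
import Pool.Agent.Work.MP_dcf6a6_c1_helper17.CALC
import Pool.Agent.Work.MP_dcf6a6_c1_helper17.GLA
import Pool.Agent.Work.MP_dcf6a6_c1_helper17.GLUE
import Pool.Agent.Work.MP_dcf6a6_c1_helper73.RG0
import Pool.Agent.Work.MP_dcf6a6_c1_helper73.KS
import Pool.Agent.Work.MP_dcf6a6_c1_helper73.CORR
import Pool.Agent.Work.MP_dcf6a6_c1_helper73.SURB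
import Pool.Agent.Work.MP_dcf6a6_c1_helper37.COPR
import Pool.Agent.Work.MP_dcf6a6_c1_helper37.KDIH
import Pool.Agent.Work.MP_dcf6a6_c1_helper37.KTET
import Pool.Agent.Work.MP_dcf6a6_c1_helper37.KOCT
import Pool.Agent.Work.MP_dcf6a6_c1_helper37.KICO
import Pool.Agent.Work.MP_dcf6a6_c1_helper28.SCAL
import Pool.Agent.Work.MP_dcf6a6_c1_helper28.TRANS
import Pool.Agent.Work.MP_dcf6a6_c1_helper28.CONST
import Pool.Agent.Work.MP_dcf6a6_c1_helper69.REV
import Pool.Agent.Work.MP_dcf6a6_c1_helper69.DEC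
import Pool.Agent.Work.MP_dcf6a6_c1_helper69.KERU
import Pool.Agent.Work.MP_dcf6a6_c1_helper69.CYCM
import Pool.Agent.Work.MP_dcf6a6_c1_helper53.COORD
import Pool.Agent.Work.MP_dcf6a6_c1_helper53.BASIC
import Pool.Agent.Work.MP_dcf6a6_c1_helper94.TONE
import Pool.Agent.Work.MP_dcf6a6_c1_helper51.TRIPLE
import Pool.Agent.Work.MP_dcf6a6_c1_helper51.SURJ
import Pool.Agent.Work.MP_dcf6a6_c1_helper52.LINB
import Pool.Agent.Work.MP_dcf6a6_c1_helper93.PICK
import Pool.Agent.Work.MP_dcf6a6_c1_helper93.NZG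
import Pool.Agent.Work.MP_dcf6a6_c1_helper50.ACC
import Pool.Agent.Work.MP_dcf6a6_c1_helper50.ALGI
import Pool.Agent.Work.MP_dcf6a6_c1_helper50.EISE
import Pool.Agent.Work.MP_dcf6a6_c1_helper4.INTG
import Pool.Agent.Work.MP_dcf6a6_c1_helper20.HFORM
import Pool.Agent.Work.MP_dcf6a6_c1_helper20.SUB
import Pool.Agent.Work.MP_dcf6a6_c1_helper10.HERK
import Pool.Agent.Work.MP_dcf6a6_c1_helper41.TAU
import Pool.Agent.Work.MP_dcf6a6_c1_helper41.CORE
import Pool.Agent.Work.MP_dcf6a6_c1_helper31.SVAR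
import Pool.Agent.Work.MP_dcf6a6_c1_helper31.PTC
import Pool.Agent.Work.MP_dcf6a6_c1_helper70.FSG
import Pool.Agent.Work.MP_dcf6a6_c1_helper29.PHIG

/-!
# All blocks of the complexity-one theorem
-/

namespace Pool.C1.helper73

theorem all_GLUE : Stmt_GLUE :=
  helper17.stmt_GLUE helper83.stmt_IFT helper17.stmt_CALC helper73.stmt_RG0 helper83.stmt_LIN
    helper17.stmt_GLA helper37.stmt_COPR helper28.stmt_SCAL

theorem all_COORD : Stmt_COORD := helper53.stmt_COORD helper28.stmt_TRANS helper69.stmt_REV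

theorem all_TRIPLE : Stmt_TRIPLE :=
  helper51.stmt_TRIPLE helper73.stmt_KS helper94.stmt_TONE helper37.stmt_KDIH helper37.stmt_KTET
    helper37.stmt_KOCT helper37.stmt_KICO

theorem all_BASIC : Stmt_BASIC :=
  helper53.stmt_BASIC (helper52.stmt_BAS3 all_TRIPLE helper52.stmt_LINB) all_COORD
    helper93.stmt_PICK

theorem all_ACC : Stmt_ACC :=
  helper50.stmt_ACC all_GLUE all_COORD all_BASIC helper28.stmt_CONST helper69.stmt_DEC

theorem all_SURB : Stmt_SURB :=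
  helper73.stmt_SURB
    (helper51.stmt_SURJ (helper69.stmt_KERU helper50.stmt_ALGI helper50.stmt_EISE)
      helper4.stmt_INTG)
    helper20.stmt_HFORM helper93.stmt_PICK

theorem all_CORE : Stmt_CORE :=
  helper41.stmt_CORE
    (helper41.stmt_TAU all_ACC all_SURB (helper20.stmt_SUB helper20.stmt_HFORM)
      (helper73.stmt_CORR helper69.stmt_CYCM helper10.stmt_HERK))
    helper31.stmt_SVAR

end Pool.C1.helper73
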