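import Pool.Agent.Work.MP_dcf6a6_c1.Basic

/-! Block SURB: preimages of points, up to the torus. -/

namespace Pool.C1.helper73

open Polynomial

theorem SURB.g_dvd {J B : Type} [Fintype J] [Fintype B] [DecidableEq J] [DecidableEq B]
    (D : BData J B) (b : B) (j : J) (hj : D.bl j = b) : D.g b ∣ D.l j :=
  Finset.gcd_dvd (Finset.mem_filter.mpr ⟨Finset.mem_univ _, hj⟩)

theorem SURB.g_pos {J B : Type} [Fintype J] [Fintype B] [DecidableEq J] [DecidableEq B]
    (D : BData J B) (b : B) : 0 < D.g b := by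
  obtain ⟨j, hj⟩ := D.bl_surj b
  exact Nat.pos_of_dvd_of_pos (SURB.g_dvd D b j hj) (D.l_pos j)

open SURB in
theorem stmt_SURB (hSURJ : Stmt_SURJ) (hHF : Stmt_HFORM) (hPICK : Stmt_PICK) : Stmt_SURB := by
  classical
  intro J B _ _ _ _ D c d τ u v x hpl hS hd hx hx0
  obtain ⟨xu, xv, hx⟩ := hx
  obtain ⟨hnz, hform⟩ := hHF D c d τ u v hS
  obtain ⟨s, hs⟩ := D.exists_section
  -- the three blocks
  have hg : ∑ b, (1 - 1 / (D.g b : ℚ)) < 2 := by
    refine lt_of_le_of_lt (Finset.sum_le_sum fun b _ => ?_) (hpl s hs)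
    have h1 : D.g b ≤ D.l (s b) := Nat.le_of_dvd (D.l_pos _) (g_dvd D b (s b) (hs b))
    have h2 : (0 : ℚ) < D.g b := by exact_mod_cast g_pos D b
    have h3 : (D.g b : ℚ) ≤ D.l (s b) := by exact_mod_cast h1
    have h4 : 1 / (D.l (s b) : ℚ) ≤ 1 / (D.g b : ℚ) := one_div_le_one_div_of_le h2 h3
    linarith
  obtain ⟨e, he, hout, -⟩ := hPICK D.g D.three (g_pos D) hg
  -- powers
  have hpow : ∀ {R : Type} [CommRing R] (f : J → R) (b : B),
      (∏ j with D.bl j = b, f j ^ (D.l j / D.g b)) ^ D.g b = ∏ j with D.bl j = b, f j ^ D.l j := by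
    intro R _ f b
    rw [← Finset.prod_pow]
    refine Finset.prod_congr rfl fun j hj => ?_
    rw [← pow_mul, Nat.div_mul_cancel (g_dvd D b j (Finset.mem_filter.mp hj).2)]
  set U : B → MvPolynomial (Fin 2) ℂ := fun b =>
    ∏ j with D.bl j = b, (τ j).homogenize (c j) ^ (D.l j / D.g b) with hU
  set E : B → ℕ := fun b => ∑ j with D.bl j = b, c j * (D.l j / D.g b) with hE
  have hUh : ∀ b, (U b).IsHomogeneous (E b) := by
    intro b
    refine MvPolynomial.IsHomogeneous.prod _ _ _ fun j _ => ?_
    exact (isHomogeneous_homogenize (τ j)).pow _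
  have hEpos : ∀ b, 0 < E b := by
    intro b
    have h1 : D.g b * E b = d := by
      rw [hE, ← hS.bal b, Finset.mul_sum]
      refine Finset.sum_congr rfl fun j hj => ?_
      have h2 := Nat.div_mul_cancel (g_dvd D b j (Finset.mem_filter.mp hj).2)
      calc D.g b * (c j * (D.l j / D.g b)) = (D.l j / D.g b * D.g b) * c j := by ring
        _ = D.l j * c j := by rw [h2]
    rcases Nat.eq_zero_or_pos (E b) with h | h
    · rw [h, mul_zero] at h1; omega
    · exact h
  have hev' : ∀ b p, MvPolynomial.eval p (U b) =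
      ∏ j with D.bl j = b, hev c τ p j ^ (D.l j / D.g b) := by
    intro b p
    rw [hU, map_prod]
    exact Finset.prod_congr rfl fun j _ => map_pow _ _ _
  have hUz : ∀ b b', b ≠ b' → ∀ p, MvPolynomial.eval p (U b) = 0 →
      MvPolynomial.eval p (U b') = 0 → p = 0 := by
    intro b b' hbb p h1 h2
    rw [hev', Finset.prod_eq_zero_iff] at h1 h2
    obtain ⟨j, hj, hj2⟩ := h1
    obtain ⟨j', hj', hj2'⟩ := h2
    have e1 := (Finset.mem_filter.mp hj).2
    have e2 := (Finset.mem_filter.mp hj').2
    refine hnz j j' ?_ p (pow_eq_zero_iff' |>.mp hj2).1 (pow_eq_zero_iff' |>.mp hj2').1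
    rintro rfl
    exact hbb (e1.symm.trans e2)
  have hUpow : ∀ b, U b ^ D.g b = MvPolynomial.C (D.al b) * u.homogenize d +
      MvPolynomial.C (D.be b) * v.homogenize d := by
    intro b
    rw [hU, hpow, hform]
  have hxpow : ∀ b, (∏ j with D.bl j = b, x j ^ (D.l j / D.g b)) ^ D.g b =
      D.al b * xu + D.be b * xv := by
    intro b
    rw [hpow, hx]
  have hne01 : e 0 ≠ e 1 := fun h => absurd (he h) (by decide)
  have hne02 : e 2 ≠ e 0 := fun h => absurd (he h) (by decide)
  have hne12 : e 1 ≠ e 2 := fun h => absurd (he h) (by decide)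
  obtain ⟨p, hp⟩ := hSURJ (fun i => U (e i)) (fun i => D.g (e i)) (fun i => E (e i))
    ![D.det (e 1) (e 2), D.det (e 2) (e 0), D.det (e 0) (e 1)]
    (fun i => ∏ j with D.bl j = e i, x j ^ (D.l j / D.g (e i)))
    (fun i => g_pos D _) (fun i => hEpos _) (fun i => hUh _)
    (fun i i' hii => hUz _ _ fun h => hii (he h))
    (by
      intro i
      fin_cases i
      · exact D.det_ne hne12
      · exact D.det_ne hne02
      · exact D.det_ne hne01)
    (by
      rw [Fin.sum_univ_three]
      simp only [hUpow]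
      simp only [Matrix.cons_val_zero, Matrix.cons_val_one, Matrix.cons_val_two, Matrix.head_cons,
        Matrix.tail_cons, Matrix.cons_val, BData.det, MvPolynomial.C_sub, MvPolynomial.C_mul]
      ring)
    (by
      rw [Fin.sum_univ_three]
      simp only [hxpow]
      simp only [Matrix.cons_val_zero, Matrix.cons_val_one, Matrix.cons_val_two, Matrix.head_cons,
        Matrix.tail_cons, Matrix.cons_val, BData.det]
      ring)
  refine ⟨p, fun b => ?_⟩
  rw [← hev']
  by_cases hb : b ∈ Set.range e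
  · obtain ⟨i, rfl⟩ := hb
    exact hp i
  · have hg1 := hout b hb
    -- the values of `u` and `v`
    have h0 : D.al (e 0) * MvPolynomial.eval p (u.homogenize d) +
        D.be (e 0) * MvPolynomial.eval p (v.homogenize d) = D.al (e 0) * xu + D.be (e 0) * xv := by
      rw [← hxpow (e 0), ← hp 0, ← map_pow, hUpow]
      simp
    have h1 : D.al (e 1) * MvPolynomial.eval p (u.homogenize d) +
        D.be (e 1) * MvPolynomial.eval p (v.homogenize d) = D.al (e 1) * xu + D.be (e 1) * xv := by
      rw [← hxpow (e 1), ← hp 1, ← map_pow, hUpow]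
      simp
    have hdet := D.det_ne hne01
    have hu : MvPolynomial.eval p (u.homogenize d) = xu := by
      apply mul_left_cancel₀ hdet
      unfold BData.det
      linear_combination D.be (e 1) * h0 - D.be (e 0) * h1
    have hv : MvPolynomial.eval p (v.homogenize d) = xv := by
      apply mul_left_cancel₀ hdet
      unfold BData.det
      linear_combination D.al (e 0) * h1 - D.al (e 1) * h0
    have h2 := congrArg (MvPolynomial.eval p) (hUpow b)
    have h3 := hxpow b
    rw [hg1, pow_one] at h2 h3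
    rw [h2]
    simp only [hg1] at h3 ⊢
    rw [h3]
    simp [hu, hv]

end Pool.C1.helper73
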